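import Pool.Agent.Helper26.KD.StT
import Pool.Agent.Helper65.CL.M_A1w

/-! # Project CB (MP_65faa7, bulk case), block T0, module TrL: translation of the big box -/

set_option autoImplicit false

open scoped BigOperators ENNReal Topology
open Pool.LE Pool.NL Filter

namespace Pool.KD

namespace TrLM

theorem mem_Lam (d n M : ℕ) (x : Zd d) :
    x ∈ CB.Lam d n M ↔ (x + fun _ => ((M * n : ℕ) : ℤ)) ∈ Bn d ((2 * M + 1) * n) := by
  unfold CB.Lam Bn
  rw [Fintype.mem_piFinset, Fintype.mem_piFinset]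
  apply forall_congr'
  intro i
  rw [Finset.mem_Ico, Finset.mem_Ico, Pi.add_apply]
  push_cast
  constructor
  · rintro ⟨a, b⟩
    constructor
    · linarith
    · linarith
  · rintro ⟨a, b⟩
    constructor
    · linarith
    · linarith

theorem Bn_eq (d n M : ℕ) : Bn d ((2 * M + 1) * n) =
    (CB.Lam d n M).map (Equiv.addLeft (fun _ => ((M * n : ℕ) : ℤ) : Zd d)).toEmbedding := by
  ext y
  rw [Finset.mem_map]
  constructor
  · intro hy
    refine ⟨y - fun _ => ((M * n : ℕ) : ℤ), ?_, ?_⟩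
    · rw [mem_Lam, sub_add_cancel]
      exact hy
    · exact add_sub_cancel _ y
  · rintro ⟨z, hz, rfl⟩
    rw [mem_Lam] at hz
    have h : (Equiv.addLeft (fun _ => ((M * n : ℕ) : ℤ) : Zd d)).toEmbedding z =
        z + fun _ => ((M * n : ℕ) : ℤ) := add_comm _ z
    rw [h]
    exact hz

theorem ES_mono (hBox : StBox) {d : ℕ} {L L' : Finset (Zd d)} (h : L ⊆ L') : ES L ⊆ ES L' := by
  obtain ⟨-, -, -, -, -, -, -, hES, -⟩ := hBox d
  intro e he
  induction e using Sym2.ind with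
  | _ a b =>
    rw [hES] at he ⊢
    exact ⟨h he.1, h he.2.1, he.2.2⟩

theorem con_mem (hBox : StBox) {d : ℕ} {L : Finset (Zd d)} {ω : Finset (Sym2 (Zd d))}
    (hω : ω ⊆ ES L) {x y : Zd d} (hxy : y ≠ x) (hc : con ω x y) : y ∈ L := by
  obtain ⟨-, -, -, -, -, -, -, hES, -⟩ := hBox d
  obtain ⟨w⟩ := (SimpleGraph.Reachable.symm hc : (gr ω).Reachable y x)
  cases w with
  | nil => exact absurd rfl hxy
  | cons h p =>
    unfold gr at h
    rw [SimpleGraph.fromEdgeSet_adj] at h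
    have h1 := hω (Finset.mem_coe.1 h.1)
    rw [hES] at h1
    exact h1.1

end TrLM

open TrLM in
theorem hTrL (hTr : CL.StTr) (hBasic : StBasic) (hTD : StTauDom) (hTB : StTauBasic)
    (hBox : StBox) : StTrL := by
  intro d n M p h0 h1
  refine ⟨mem_Lam d n M, ?_, ?_, ?_, ?_⟩
  · intro x y
    rw [Bn_eq d n M, ← (hTr d p h0 h1).2.2.2 (CB.Lam d n M)]
    unfold cp pr
    have h2 := (hTr d p h0 h1).1 (ES (CB.Lam d n M)) (fun _ => ((M * n : ℕ) : ℤ))
      (fun ω => ind (con ω (x + fun _ => ((M * n : ℕ) : ℤ)) (y + fun _ => ((M * n : ℕ) : ℤ))))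
    unfold ex at h2
    rw [h2]
    congr 1
    funext ω
    rw [add_comm x, add_comm y, (hTr d p h0 h1).2.1 ω _ x y]
  · intro L L' hL x y
    exact CL.a1w_mono hTr d (ES L) (ES L') (ES_mono hBox hL) p h0 h1 x y
  · intro L x y
    obtain ⟨-, -, -, -, -, -, -, -, hlat, -⟩ := hBox d
    exact CL.a1w_le hBasic hTD hTB d (ES L) (hlat L) p h0 h1 x y
  · intro L x y hx hy
    unfold cp pr Ex
    refine Finset.sum_eq_zero fun ω hω => ?_
    rw [Finset.mem_powerset] at hω
    have hxy : y ≠ x := fun h => hy (h ▸ hx)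
    have hc : ¬ con ω x y := fun hc => hy (con_mem hBox hω hxy hc)
    unfold ind
    beta_reduce
    rw [if_neg hc, smul_zero]

end Pool.KD
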